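import Mathlib
import Pool.Agent.V1113.KanDefs
import Pool.Agent.V1113.KanIrr

/-!
# An irreducible Jordan supermodule over `Kan(F[x])` that is not a Kantor double

For the polynomial ring with the bracket `{a, b} = a b' - a' b` over a field of characteristic zero,
the Kantor double has an irreducible unital Jordan supermodule on which the even part `F[x]` does not
act associatively.
-/

set_option autoImplicit false
set_option linter.all false

namespace Pool.Agent.Results.MP_ba200f_al.PolynomialDouble

open Polynomial Pool.Agent.V1113.Kan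

universe u v

section

variable {F : Type u} [Field F]

theorem tauH_add (m n : Hm F) : tauH F (m + n) = tauH F m + tauH F n := by
  simp only [tauH]; noncomm_ring

theorem tauH_smul (c : F) (m : Hm F) : tauH F (c • m) = c • tauH F m := by
  simp only [tauH, mul_smul_comm, smul_mul_assoc]

theorem rho_fst_add {W : Type*} [AddCommGroup W] [Module F W] (π : F[X] →ₐ[F] Module.End F W)
    (δ : Module.End F W) (a b : F[X]) : rho π δ (a + b, 0) = rho π δ (a, 0) + rho π δ (b, 0) := by
  rw [← rho_add]; simp

theorem rho_snd_add {W : Type*} [AddCommGroup W] [Module F W] (π : F[X] →ₐ[F] Module.End F W)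
    (δ : Module.End F W) (a b : F[X]) : rho π δ (0, a + b) = rho π δ (0, a) + rho π δ (0, b) := by
  rw [← rho_add]; simp

theorem rho_fst_smul {W : Type*} [AddCommGroup W] [Module F W] (π : F[X] →ₐ[F] Module.End F W)
    (δ : Module.End F W) (c : F) (a : F[X]) : rho π δ (c • a, 0) = c • rho π δ (a, 0) := by
  rw [← rho_smul]; simp

theorem rho_snd_smul {W : Type*} [AddCommGroup W] [Module F W] (π : F[X] →ₐ[F] Module.End F W)
    (δ : Module.End F W) (c : F) (a : F[X]) : rho π δ (0, c • a) = c • rho π δ (0, a) := by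
  rw [← rho_smul]; simp

/-- The left action as a bilinear map. -/
noncomputable def lB : (F[X] × F[X]) →ₗ[F] Md F →ₗ[F] Md F :=
  LinearMap.mk₂ F lact
    (fun x y m => by
      apply Subtype.ext
      change lactH F (x + y) m.1 = lactH F x m.1 + lactH F y m.1
      simp only [lactH, rT, rS, rho_add, Prod.fst_add, Prod.snd_add, rho_fst_add, rho_snd_add,
        add_mul, mul_add]
      module)
    (fun c x m => by
      apply Subtype.ext
      change lactH F (c • x) m.1 = c • lactH F x m.1
      simp only [lactH, rT, rS, rho_smul, Prod.smul_fst, Prod.smul_snd, rho_fst_smul, rho_snd_smul,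
        smul_mul_assoc, mul_smul_comm]
      module)
    (fun x m n => by
      apply Subtype.ext
      change lactH F x (m.1 + n.1) = lactH F x m.1 + lactH F x n.1
      simp only [lactH, tauH_add, add_mul, mul_add]
      module)
    (fun c x m => by
      apply Subtype.ext
      change lactH F x (c • m.1) = c • lactH F x m.1
      simp only [lactH, tauH_smul, smul_mul_assoc, mul_smul_comm]
      module)

/-- The right action as a bilinear map. -/
noncomputable def rB : Md F →ₗ[F] (F[X] × F[X]) →ₗ[F] Md F :=
  LinearMap.mk₂ F ract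
    (fun m n x => by
      apply Subtype.ext
      change ractH F (m.1 + n.1) x = ractH F m.1 x + ractH F n.1 x
      simp only [ractH, tauH_add, add_mul, mul_add]
      module)
    (fun c m x => by
      apply Subtype.ext
      change ractH F (c • m.1) x = c • ractH F m.1 x
      simp only [ractH, tauH_smul, smul_mul_assoc, mul_smul_comm]
      module)
    (fun m x y => by
      apply Subtype.ext
      change ractH F m.1 (x + y) = ractH F m.1 x + ractH F m.1 y
      simp only [ractH, rT, rS, rho_add, Prod.fst_add, Prod.snd_add, rho_fst_add, rho_snd_add,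
        add_mul, mul_add]
      module)
    (fun c m x => by
      apply Subtype.ext
      change ractH F m.1 (c • x) = c • ractH F m.1 x
      simp only [ractH, rT, rS, rho_smul, Prod.smul_fst, Prod.smul_snd, rho_fst_smul, rho_snd_smul,
        smul_mul_assoc, mul_smul_comm]
      module)

theorem ract_one (h2 : (2 : F) ≠ 0) (m : Md F) : ract m (1, 0) = m := by
  apply Subtype.ext
  change ractH F m.1 (1, 0) = m.1
  have h1 : rS F ((1 : F[X]), (0 : F[X])) = 1 := by
    rw [rS, rho_even]
    refine LinearMap.ext fun v => ?_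
    rw [opE_apply, map_one]; rfl
  have h3 : rT F ((1 : F[X]), (0 : F[X])) = 1 := by
    rw [rT, rho_even]
    refine LinearMap.ext fun v => ?_
    rw [opE_apply, map_one]; rfl
  have h4 : rT F ((0 : F[X]), (0 : F[X])) = 0 := by rw [rT, rho_even, opE_zero]
  rw [ractH, h1, h3, h4, zero_mul, add_zero, one_mul, mul_one, ← two_smul F, smul_smul,
    inv_mul_cancel₀ h2, one_smul]

theorem simple_poly [CharZero F] (I : Submodule F F[X])
    (hI : ∀ a ∈ I, ∀ b, a * b ∈ I ∧ polyBr F a b ∈ I) : I = ⊥ ∨ I = ⊤ := by
  by_cases h : I = ⊥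
  · exact Or.inl h
  right
  obtain ⟨a, ha, ha0⟩ := Submodule.exists_mem_ne_zero_of_ne_bot h
  have hder : ∀ a ∈ I, derivative a ∈ I := by
    intro a ha
    have h1 := (hI a ha 1).2
    rw [polyBr, derivative_one, mul_zero, mul_one, zero_sub] at h1
    simpa using I.neg_mem h1
  have hone : ∀ n : ℕ, ∀ a ∈ I, a ≠ 0 → a.natDegree = n → (1 : F[X]) ∈ I := by
    intro n
    induction n with
    | zero =>
      intro a ha ha0 hd
      have h1 := eq_C_of_natDegree_eq_zero hd
      have hc : a.coeff 0 ≠ 0 := by
        intro h0; rw [h0, C_0] at h1; exact ha0 h1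
      have h3 := (hI a ha (C (a.coeff 0)⁻¹)).1
      have h4 : a * C (a.coeff 0)⁻¹ = 1 := by
        conv_lhs => rw [h1]
        rw [coeff_C_zero, ← C_mul, mul_inv_cancel₀ hc, C_1]
      rwa [h4] at h3
    | succ n ih =>
      intro a ha ha0 hd
      have h1 : (derivative a).natDegree = n := by
        rw [natDegree_derivative, hd]; rfl
      refine ih (derivative a) (hder a ha) ?_ h1
      intro h0
      have := natDegree_eq_zero_of_derivative_eq_zero h0
      omega
  have h1 := hone _ a ha ha0 rfl
  rw [eq_top_iff]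
  intro b _
  have := (hI 1 h1 b).1
  rwa [one_mul] at this

end

/-- The polynomial ring `F[x]` over a field `F` of characteristic zero, with the bracket
`{a, b} = a b' - a' b`, is a simple unital dot-bracket superalgebra with a Jordan bracket, and
`Kan(F[x])` has a unital irreducible Jordan supermodule `M` that is not isomorphic to `Kan(V)` for
any dot-bracket supermodule `V` over `F[x]` with a Jordan bracket. -/
theorem result (F : Type u) [Field F] [CharZero F] :
    IsJordanBracket F (id : F[X] → F[X]) (· * ·) (polyBr F) ∧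
    (∀ I : Submodule F F[X], (∀ a ∈ I, ∀ b, a * b ∈ I ∧ polyBr F a b ∈ I) → I = ⊥ ∨ I = ⊤) ∧
    ∃ (M : Type u) (_ : AddCommGroup M) (_ : Module F M) (τ : M → M)
      (l : (F[X] × F[X]) →ₗ[F] M →ₗ[F] M) (r : M →ₗ[F] (F[X] × F[X]) →ₗ[F] M),
      IsJordan F (extPar (kanPar id) τ)
        (extMul (kanMul id (· * ·) (polyBr F)) (fun x m => l x m) (fun m x => r m x)) ∧
      (∀ m, r m (1, 0) = m) ∧ Nontrivial M ∧
      (∀ N : Submodule F M, (∀ m ∈ N, τ m ∈ N) → (∀ m ∈ N, ∀ x, r m x ∈ N) → N = ⊥ ∨ N = ⊤) ∧
      ∀ (V : Type v) [AddCommGroup V] [Module F V] (τ' : V → V)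
        (ld lb : F[X] →ₗ[F] V →ₗ[F] V) (rd rb : V →ₗ[F] F[X] →ₗ[F] V),
        IsJordanBracket F (extPar id τ')
          (extMul (· * ·) (fun a w => ld a w) (fun w a => rd w a))
          (extMul (polyBr F) (fun a w => lb a w) (fun w a => rb w a)) →
        ¬ ∃ φ : M ≃ₗ[F] V × V, ∀ m x,
          φ (r m x) = kanAct id (fun w a => rd w a) (fun w a => rb w a) (φ m) x := by
  have h2 : (2 : F) ≠ 0 := two_ne_zero
  refine ⟨⟨isDotBracket h2, isJordan_kan h2⟩, simple_poly, Md F, inferInstance, inferInstance, tau,
    lB, rB, isJordan_ext h2, ract_one h2, ⟨⟨seed, 0, seed_ne_zero⟩⟩,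
    fun N hτ hr => irreducible hτ hr, ?_⟩
  intro V _ _ τ' ld lb rd rb hV
  rintro ⟨φ, hφ⟩
  have hassoc : ∀ w a b, rd (rd w a) b = rd w (a * b) := by
    intro w a b
    have h := congrArg Prod.snd (hV.1.dot_assoc (0, w) (a, 0) (b, 0))
    simpa [extMul] using h
  have hK : ∀ w : V × V, kanAct id (fun w a => rd w a) (fun w a => rb w a)
      (kanAct id (fun w a => rd w a) (fun w a => rb w a) w (X, 0)) ((X : F[X]), 0) =
      kanAct id (fun w a => rd w a) (fun w a => rb w a) w ((X : F[X]) * X, 0) := by
    intro w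
    simp [kanAct, hassoc]
  have h1 : rB (rB (seed : Md F) (X, 0)) (X, 0) = rB seed (X * X, 0) := by
    apply φ.injective
    rw [hφ, hφ, hφ, hK]
  have e1 : rB (seed : Md F) (X, 0) = (2 : F)⁻¹ • seed := by
    have := ract_seed (F := F) 0
    rw [zero_add, pow_one] at this
    exact this
  have e2 : rB (seed : Md F) (X * X, 0) = (2 : F)⁻¹ • seed := by
    have := ract_seed (F := F) 1
    rw [one_add_one_eq_two, pow_two] at this
    exact this
  rw [e1, e2, map_smul, LinearMap.smul_apply, e1, smul_smul] at h1
  have h3 := congrArg (fun m : Md F => (m.1 (1, 0)).2.coeff 0) h1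
  have h4 : ∀ c : F, ((c • (seed : Md F)).1 (1, 0)).2.coeff 0 = c := by
    intro c
    change ((c • bas ((0, 1) : F[X] × F[X]) 0) (1, 0)).2.coeff 0 = c
    simp [bas_apply]
  have h5 : (2 : F)⁻¹ * 2⁻¹ = 2⁻¹ := (h4 _).symm.trans (h3.trans (h4 _))
  have h6 : (2 : F)⁻¹ * 2⁻¹ ≠ 2⁻¹ := by norm_num
  exact h6 h5

end Pool.Agent.Results.MP_ba200f_al.PolynomialDouble
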